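import Mathlib

set_option autoImplicit false

/-! Occurrences of the pattern
`B B B B M0 B M1 B M2 B M3 B V B N B X M0 D M1 D M2 D M3 Y N` in an infinite word, in terms of
positions and lengths. -/

namespace Pool.Agent.MP554eee

variable {α : Type*}

/-- The list `l` occurs in `w` at position `i`. -/
def Occ (w : ℕ → α) (i : ℕ) (l : List α) : Prop :=
  ∀ t (ht : t < l.length), w (i + t) = l[t]

theorem occ_nil (w : ℕ → α) (i : ℕ) : Occ w i [] := by
  intro t ht
  simp at ht

theorem occ_append (w : ℕ → α) (i : ℕ) (l₁ l₂ : List α) :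
    Occ w i (l₁ ++ l₂) ↔ Occ w i l₁ ∧ Occ w (i + l₁.length) l₂ := by
  constructor
  · intro h
    refine ⟨?_, ?_⟩
    · intro t ht
      have := h t (by rw [List.length_append]; omega)
      rw [this, List.getElem_append_left ht]
    · intro t ht
      have := h (l₁.length + t) (by rw [List.length_append]; omega)
      rw [show i + l₁.length + t = i + (l₁.length + t) by ring, this,
        List.getElem_append_right (by omega)]
      congr 1
      omega
  · rintro ⟨h1, h2⟩ t ht
    rw [List.length_append] at ht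
    by_cases h : t < l₁.length
    · rw [List.getElem_append_left h]; exact h1 t h
    · rw [List.getElem_append_right (by omega)]
      have := h2 (t - l₁.length) (by omega)
      rw [← this]; congr 1; omega

theorem ofFn_eq_iff (w : ℕ → α) (i n : ℕ) (l : List α) :
    List.ofFn (fun j : Fin n => w (i + (j : ℕ))) = l ↔ n = l.length ∧ Occ w i l := by
  constructor
  · intro h
    subst h
    refine ⟨by simp, ?_⟩
    intro t ht
    simp
  · rintro ⟨rfl, h⟩
    apply List.ext_getElem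
    · simp
    · intro t h1 h2
      simp only [List.getElem_ofFn]
      exact h t h2

/-- The factors of length `l` at positions `a` and `b` agree. -/
def Same (w : ℕ → α) (a b l : ℕ) : Prop := ∀ t, t < l → w (a + t) = w (b + t)

theorem Occ.same {w : ℕ → α} {a b : ℕ} {l : List α} (ha : Occ w a l) (hb : Occ w b l) :
    Same w a b l.length := by
  intro t ht
  rw [ha t ht, hb t ht]

/-- The factor of length `l` at position `a`. -/
def fac (w : ℕ → α) (a l : ℕ) : List α := List.ofFn (fun j : Fin l => w (a + (j : ℕ)))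

theorem length_fac (w : ℕ → α) (a l : ℕ) : (fac w a l).length = l := by
  simp [fac]

theorem Same.occ {w : ℕ → α} {a b l : ℕ} (h : Same w a b l) : Occ w b (fac w a l) := by
  intro t ht
  rw [length_fac] at ht
  simp only [fac, List.getElem_ofFn]
  exact (h t ht).symm

theorem occ_fac (w : ℕ → α) (a l : ℕ) : Occ w a (fac w a l) := by
  apply Same.occ
  intro t _
  rfl

/-- The pattern. Variables: `0 = B`, `1,2,3,4 = M0,M1,M2,M3`, `5 = V`, `6 = N`, `7 = X`,
`8 = D`, `9 = Y`. -/
def pat : List (Fin 10) :=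
  [0, 0, 0, 0, 1, 0, 2, 0, 3, 0, 4, 0, 5, 0, 6, 0, 7, 1, 8, 2, 8, 3, 8, 4, 9, 6]

/-- Description of an occurrence at position `i` with lengths `q = |B|`, `m0, m1, m2, m3`,
`v = |V|`, `n = |N|`, `x = |X|`, `d = |D|`, `y = |Y|`. -/
structure Inst (w : ℕ → α) (i q m0 m1 m2 m3 v n x d y : ℕ) : Prop where
  hq : 1 ≤ q
  hm0 : 1 ≤ m0
  hm1 : 1 ≤ m1
  hm2 : 1 ≤ m2
  hm3 : 1 ≤ m3
  hv : 1 ≤ v
  hn : 1 ≤ n
  hx : 1 ≤ x
  hd : 1 ≤ d
  hy : 1 ≤ y
  b1 : Same w i (i + q) q
  b2 : Same w i (i + 2 * q) q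
  b3 : Same w i (i + 3 * q) q
  b4 : Same w i (i + 4 * q + m0) q
  b5 : Same w i (i + 5 * q + m0 + m1) q
  b6 : Same w i (i + 6 * q + m0 + m1 + m2) q
  b7 : Same w i (i + 7 * q + m0 + m1 + m2 + m3) q
  b8 : Same w i (i + 8 * q + m0 + m1 + m2 + m3 + v) q
  b9 : Same w i (i + 9 * q + m0 + m1 + m2 + m3 + v + n) q
  c0 : Same w (i + 4 * q) (i + 10 * q + m0 + m1 + m2 + m3 + v + n + x) m0
  c1 : Same w (i + 5 * q + m0) (i + 10 * q + 2 * m0 + m1 + m2 + m3 + v + n + x + d) m1
  c2 : Same w (i + 6 * q + m0 + m1)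
    (i + 10 * q + 2 * m0 + 2 * m1 + m2 + m3 + v + n + x + 2 * d) m2
  c3 : Same w (i + 7 * q + m0 + m1 + m2)
    (i + 10 * q + 2 * m0 + 2 * m1 + 2 * m2 + m3 + v + n + x + 3 * d) m3
  e1 : Same w (i + 10 * q + 2 * m0 + m1 + m2 + m3 + v + n + x)
    (i + 10 * q + 2 * m0 + 2 * m1 + m2 + m3 + v + n + x + d) d
  e2 : Same w (i + 10 * q + 2 * m0 + m1 + m2 + m3 + v + n + x)
    (i + 10 * q + 2 * m0 + 2 * m1 + 2 * m2 + m3 + v + n + x + 2 * d) d
  f1 : Same w (i + 9 * q + m0 + m1 + m2 + m3 + v)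
    (i + 10 * q + 2 * m0 + 2 * m1 + 2 * m2 + 2 * m3 + v + n + x + 3 * d + y) n

theorem Occ.at {w : ℕ → α} {a b : ℕ} {l : List α} (h : Occ w a l) (e : a = b) : Occ w b l := by
  subst e; exact h

theorem inst_of_occ (w : ℕ → α) (i : ℕ) (h : Fin 10 → List α) (hne : ∀ x, h x ≠ [])
    (ho : Occ w i (pat.flatMap h)) :
    Inst w i (h 0).length (h 1).length (h 2).length (h 3).length (h 4).length (h 5).length
      (h 6).length (h 7).length (h 8).length (h 9).length := by
  have hpos : ∀ x, 1 ≤ (h x).length := fun x => List.length_pos_iff.mpr (hne x)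
  simp only [pat, List.flatMap_cons, List.flatMap_nil, occ_append, List.append_nil] at ho
  obtain ⟨o1, o2, o3, o4, o5, o6, o7, o8, o9, o10, o11, o12, o13, o14, o15, o16, o17, o18, o19,
    o20, o21, o22, o23, o24, o25, o26⟩ := ho
  refine ⟨hpos 0, hpos 1, hpos 2, hpos 3, hpos 4, hpos 5, hpos 6, hpos 7, hpos 8, hpos 9,
    ?_, ?_, ?_, ?_, ?_, ?_, ?_, ?_, ?_, ?_, ?_, ?_, ?_, ?_, ?_, ?_⟩
  · exact o1.same (o2.at (by omega))
  · exact o1.same (o3.at (by omega))
  · exact o1.same (o4.at (by omega))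
  · exact o1.same (o6.at (by omega))
  · exact o1.same (o8.at (by omega))
  · exact o1.same (o10.at (by omega))
  · exact o1.same (o12.at (by omega))
  · exact o1.same (o14.at (by omega))
  · exact o1.same (o16.at (by omega))
  · exact (o5.at (by omega)).same (o18.at (by omega))
  · exact (o7.at (by omega)).same (o20.at (by omega))
  · exact (o9.at (by omega)).same (o22.at (by omega))
  · exact (o11.at (by omega)).same (o24.at (by omega))
  · exact (o19.at (by omega)).same (o21.at (by omega))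
  · exact (o19.at (by omega)).same (o23.at (by omega))
  · exact (o15.at (by omega)).same (o26.at (by omega))

theorem fac_ne_nil (w : ℕ → α) (a l : ℕ) (h : 1 ≤ l) : fac w a l ≠ [] := by
  intro h0
  have := length_fac w a l
  rw [h0] at this
  simp at this
  omega

theorem occ_of_inst (w : ℕ → α) (i q m0 m1 m2 m3 v n x d y : ℕ)
    (H : Inst w i q m0 m1 m2 m3 v n x d y) :
    ∃ h : Fin 10 → List α, (∀ x, h x ≠ []) ∧ Occ w i (pat.flatMap h) := by
  refine ⟨![fac w i q, fac w (i + 4 * q) m0, fac w (i + 5 * q + m0) m1,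
    fac w (i + 6 * q + m0 + m1) m2, fac w (i + 7 * q + m0 + m1 + m2) m3,
    fac w (i + 8 * q + m0 + m1 + m2 + m3) v, fac w (i + 9 * q + m0 + m1 + m2 + m3 + v) n,
    fac w (i + 10 * q + m0 + m1 + m2 + m3 + v + n) x,
    fac w (i + 10 * q + 2 * m0 + m1 + m2 + m3 + v + n + x) d,
    fac w (i + 10 * q + 2 * m0 + 2 * m1 + 2 * m2 + 2 * m3 + v + n + x + 3 * d) y], ?_, ?_⟩
  · intro z
    obtain ⟨hq, hm0, hm1, hm2, hm3, hv, hn, hx, hd, hy, -⟩ := H
    fin_cases z <;> exact fac_ne_nil _ _ _ (by assumption)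
  · simp only [pat, List.flatMap_cons, List.flatMap_nil, occ_append, List.append_nil,
      Matrix.cons_val, length_fac]
    refine ⟨occ_fac _ _ _, H.b1.occ, ?_, ?_, ?_, ?_, ?_, ?_, ?_, ?_, ?_, ?_, ?_, ?_, ?_, ?_, ?_, ?_,
      ?_, ?_, ?_, ?_, ?_, ?_, ?_, ?_⟩
    · exact H.b2.occ.at (by omega)
    · exact H.b3.occ.at (by omega)
    · exact (occ_fac _ _ _).at (by omega)
    · exact H.b4.occ.at (by omega)
    · exact (occ_fac _ _ _).at (by omega)
    · exact H.b5.occ.at (by omega)
    · exact (occ_fac _ _ _).at (by omega)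
    · exact H.b6.occ.at (by omega)
    · exact (occ_fac _ _ _).at (by omega)
    · exact H.b7.occ.at (by omega)
    · exact (occ_fac _ _ _).at (by omega)
    · exact H.b8.occ.at (by omega)
    · exact (occ_fac _ _ _).at (by omega)
    · exact H.b9.occ.at (by omega)
    · exact (occ_fac _ _ _).at (by omega)
    · exact H.c0.occ.at (by omega)
    · exact (occ_fac _ _ _).at (by omega)
    · exact H.c1.occ.at (by omega)
    · exact H.e1.occ.at (by omega)
    · exact H.c2.occ.at (by omega)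
    · exact H.e2.occ.at (by omega)
    · exact H.c3.occ.at (by omega)
    · exact (occ_fac _ _ _).at (by omega)
    · exact H.f1.occ.at (by omega)

/-- Encountering the pattern is the existence of an occurrence described by `Inst`. -/
theorem encounters_iff (w : ℕ → α) :
    (∃ h : Fin 10 → List α, (∀ x, h x ≠ []) ∧
      ∃ i n : ℕ, List.ofFn (fun j : Fin n => w (i + (j : ℕ))) = pat.flatMap h) ↔
    ∃ i q m0 m1 m2 m3 v n x d y : ℕ, Inst w i q m0 m1 m2 m3 v n x d y := by
  constructor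
  · rintro ⟨h, hne, i, n, ho⟩
    rw [ofFn_eq_iff] at ho
    exact ⟨i, _, _, _, _, _, _, _, _, _, _, inst_of_occ w i h hne ho.2⟩
  · rintro ⟨i, q, m0, m1, m2, m3, v, n, x, d, y, H⟩
    obtain ⟨h, hne, ho⟩ := occ_of_inst w i q m0 m1 m2 m3 v n x d y H
    exact ⟨h, hne, i, _, (ofFn_eq_iff _ _ _ _).mpr ⟨rfl, ho⟩⟩

end Pool.Agent.MP554eee
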