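import Pool.Agent.Lib.MP_554eee_co.Word
import Pool.Agent.Lib.MP_554eee_co.Inst

set_option autoImplicit false

/-! The word `u * toe` avoids the pattern. -/

namespace Pool.Agent.MP554eee

theorem fw171 : fw 171 = 2 := by
  rw [fw_lt (by omega)]; decide +kernel

theorem Same.fw_lt_uc {a b l : ℕ} (h : Same fw a b l) (t : ℕ) (ht : t < l) (h1 : a + t < 172)
    (h2 : b + t < 172) : uc (a + t) = uc (b + t) := by
  have := h t ht
  rwa [fw_lt h1, fw_lt h2] at this

theorem uc_three : ∀ t < 172, 52 ≤ t → uc t ≠ 3 := by decide +kernel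

theorem uc_anchor : ∀ t < 52, 17 ≤ t → uc t ≠ 2 := by decide +kernel

theorem uc_marker : ∀ j < 7, ∀ t < 172, uc t = 4 + j → t ≤ 52 + 16 * j + 15 := by decide +kernel

theorem uc_block : ∀ j < 7, uc (52 + 16 * j) = 4 + j ∧ uc (52 + 16 * j + 6) ≤ 1 ∧
    uc (52 + 16 * j + 8) ≤ 1 ∧ uc (52 + 16 * j + 10) ≤ 1 ∧ uc (52 + 16 * j + 12) = 2 ∧
    uc (52 + 16 * j + 14) = 0 := by decide +kernel

theorem uc_windows : ∀ j < 7,
    ((uc (52 + 16 * j + 4) = 0 ∧ uc (52 + 16 * j + 6) = 1 ∧ uc (52 + 16 * j + 10) = 1) ∨
     (uc (52 + 16 * j + 4) = 1 ∧ uc (52 + 16 * j + 8) = 0 ∧ uc (52 + 16 * j + 10) = 0)) ∨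
    (uc (52 + 16 * j + 4) = 2 ∧
     ((uc (52 + 16 * j + 6) = 0 ∧ uc (52 + 16 * j + 8) = 1 ∧ uc (52 + 16 * j + 10) = 1) ∨
      (uc (52 + 16 * j + 6) = 0 ∧ uc (52 + 16 * j + 8) = 0))) := by decide +kernel

theorem fw_eq_of {t a : ℕ} (h : t < 172) (e : uc t = a) : fw t = a := by
  rw [fw_lt h, e]

/-- Letter `3` (the marker of the first block) only occurs before position `52`. -/
theorem fw_three {t : ℕ} (h : fw t = 3) : t < 52 := by
  by_contra hc
  by_cases h2 : t < 172
  · rw [fw_lt h2] at h
    exact uc_three t h2 (by omega) h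
  · have := fw_ge_le (t := t) (by omega)
    omega

theorem fw_marker {j t : ℕ} (hj : j < 7) (h : fw t = 4 + j) : t ≤ 52 + 16 * j + 15 := by
  by_cases h2 : t < 172
  · rw [fw_lt h2] at h
    exact uc_marker j hj t h2 h
  · have := fw_ge_le (t := t) (by omega)
    omega

/-- Step one: the fourth power. -/
theorem step1 {i q m0 m1 m2 m3 v n x d y : ℕ} (H : Inst fw i q m0 m1 m2 m3 v n x d y) :
    q = 1 ∧ (i = 0 ∨ ∃ j < 7, i = 52 + 16 * j) := by
  have hq := H.hq
  have b1 := H.b1
  have b2 := H.b2
  have b3 := H.b3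
  have hper : ∀ t, t < 3 * q → fw (i + t) = fw (i + q + t) := by
    intro t ht
    by_cases h1 : t < q
    · exact b1 t h1
    · by_cases h2 : t < 2 * q
      · obtain ⟨s, rfl⟩ := Nat.exists_eq_add_of_le (not_lt.mp h1)
        have e1 := b1 s (by omega)
        have e2 := b2 s (by omega)
        rw [show i + (q + s) = i + q + s by ring, ← e1, e2]; congr 1; ring
      · obtain ⟨s, rfl⟩ := Nat.exists_eq_add_of_le (not_lt.mp h2)
        have e2 := b2 s (by omega)
        have e3 := b3 s (by omega)
        rw [show i + (2 * q + s) = i + 2 * q + s by ring, ← e2, e3]; congr 1; ring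
  have hi : i < 172 := by
    by_contra hc
    obtain ⟨r, rfl⟩ := Nat.exists_eq_add_of_le (not_lt.mp hc)
    apply toe_no_fourth q hq r
    intro t ht
    have := hper t ht
    rw [show 172 + r + t = 172 + (r + t) by ring,
      show 172 + r + q + t = 172 + (r + t + q) by ring, fw_ge, fw_ge] at this
    exact this
  have h3 : i + 3 * q < 172 := by
    by_contra hc
    have small : ∀ t, t < q → fw (i + t) ≤ 1 := by
      intro t ht
      rw [b3 t ht]
      exact fw_ge_le (by omega)
    have h171 : fw (i + (171 - i)) ≤ 1 := by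
      by_cases h1 : 171 - i < q
      · exact small _ h1
      · by_cases h2 : 171 - i < 2 * q
        · have := b1 (171 - i - q) (by omega)
          have h4 := small (171 - i - q) (by omega)
          rw [this] at h4
          rw [show i + (171 - i) = i + q + (171 - i - q) by omega]
          exact h4
        · have := b2 (171 - i - 2 * q) (by omega)
          have h4 := small (171 - i - 2 * q) (by omega)
          rw [this] at h4
          rw [show i + (171 - i) = i + 2 * q + (171 - i - 2 * q) by omega]
          exact h4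
    rw [show i + (171 - i) = 171 by omega, fw171] at h171
    omega
  refine fc1 i hi q (by omega) hq h3 (rng_of _ _ _ ?_)
  intro t ht
  have := hper t (by omega)
  rwa [fw_lt (by omega), fw_lt (by omega)] at this

/-- The case of the first block. -/
theorem case0 {m0 m1 m2 m3 v n x d y : ℕ} (H : Inst fw 0 1 m0 m1 m2 m3 v n x d y) : False := by
  obtain ⟨-, hm0, hm1, hm2, hm3, hv, hn, hx, hd, hy, -, -, -, b4, b5, b6, b7, b8, b9, c0, c1, c2,
    c3, e1, -, f1⟩ := H
  have u0 : fw 0 = 3 := fw_eq_of (by omega) (by decide +kernel)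
  have u4 : fw 4 = 2 := fw_eq_of (by omega) (by decide +kernel)
  have u5 : fw 5 = 3 := fw_eq_of (by omega) (by decide +kernel)
  have u6 : fw 6 = 2 := fw_eq_of (by omega) (by decide +kernel)
  have u7 : fw 7 = 3 := fw_eq_of (by omega) (by decide +kernel)
  have u8 : fw 8 = 2 := fw_eq_of (by omega) (by decide +kernel)
  have u9 : fw 9 = 3 := fw_eq_of (by omega) (by decide +kernel)
  have u10 : fw 10 = 1 := fw_eq_of (by omega) (by decide +kernel)
  have u11 : fw 11 = 3 := fw_eq_of (by omega) (by decide +kernel)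
  -- the second copy of `M0` starts after the first block
  have h9 := b9 0 (by omega)
  have h8 := b8 0 (by omega)
  simp only [Nat.add_zero, Nat.zero_add, u0] at h9 h8
  have hs0 := c0 0 (by omega)
  have l0 : 52 ≤ 10 * 1 + m0 + m1 + m2 + m3 + v + n + x := by
    by_contra hc
    simp only [Nat.add_zero, Nat.zero_add] at hs0
    rw [show 4 * 1 = 4 by rfl, u4] at hs0
    rw [fw_lt (by omega)] at hs0
    exact uc_anchor _ (by omega) (by omega) hs0.symm
  have k0 : m0 = 1 := by
    by_contra hc
    have := c0 1 (by omega)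
    rw [show 0 + 4 * 1 + 1 = 5 by rfl, u5] at this
    have := fw_three this.symm
    omega
  subst k0
  have k1 : m1 = 1 := by
    by_contra hc
    have := c1 1 (by omega)
    rw [show 0 + 5 * 1 + 1 + 1 = 7 by rfl, u7] at this
    have := fw_three this.symm
    omega
  subst k1
  have k2 : m2 = 1 := by
    by_contra hc
    have := c2 1 (by omega)
    rw [show 0 + 6 * 1 + 1 + 1 + 1 = 9 by rfl, u9] at this
    have := fw_three this.symm
    omega
  subst k2
  have k3 : m3 = 1 := by
    by_contra hc
    have := c3 1 (by omega)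
    rw [show 0 + 7 * 1 + 1 + 1 + 1 + 1 = 11 by rfl, u11] at this
    have := fw_three this.symm
    omega
  subst k3
  -- the letters around the copies of `D`
  have g0 := c0 0 (by omega)
  have g1 := c1 0 (by omega)
  have g2 := c2 0 (by omega)
  obtain ⟨s, hs⟩ : ∃ s, s = 14 + v + n + x := ⟨_, rfl⟩
  rw [show 0 + 4 * 1 + 0 = 4 by rfl, u4,
    show 0 + 10 * 1 + 1 + 1 + 1 + 1 + v + n + x + 0 = s by omega] at g0
  rw [show 0 + 5 * 1 + 1 + 0 = 6 by rfl, u6,
    show 0 + 10 * 1 + 2 * 1 + 1 + 1 + 1 + v + n + x + d + 0 = s + (d + 1) by omega] at g1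
  rw [show 0 + 6 * 1 + 1 + 1 + 0 = 8 by rfl, u8,
    show 0 + 10 * 1 + 2 * 1 + 2 * 1 + 1 + 1 + v + n + x + 2 * d + 0 = s + 2 * (d + 1) by omega]
    at g2
  have hlt : s + 2 * (d + 1) < 172 := by
    by_contra hc
    have := fw_ge_le (t := s + 2 * (d + 1)) (by omega)
    omega
  have key := fc2 s (by omega) (d + 1) (by omega) (by omega) (by omega) hlt
    (by rw [← fw_lt (by omega)]; exact g0.symm) (by rw [← fw_lt (by omega)]; exact g1.symm)
    (by rw [← fw_lt (by omega)]; exact g2.symm)
    (rng_of _ _ _ (by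
      intro t ht
      have := e1 t (by omega)
      rw [show 0 + 10 * 1 + 2 * 1 + 1 + 1 + 1 + v + n + x + t = s + 1 + t by omega,
        show 0 + 10 * 1 + 2 * 1 + 2 * 1 + 1 + 1 + v + n + x + d + t = s + (d + 1) + 1 + t by omega,
        fw_lt (by omega), fw_lt (by omega)] at this
      exact this))
  obtain ⟨hs164, hd1⟩ := key
  have hd' : d = 1 := by omega
  subst hd'
  -- `N` occurs in the tail
  have hN : ∀ t, t < n → fw (13 + v + t) = toe (y - 1 + t) := by
    intro t ht
    have := f1 t ht
    rw [show 0 + 9 * 1 + 1 + 1 + 1 + 1 + v + t = 13 + v + t by omega,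
      show 0 + 10 * 1 + 2 * 1 + 2 * 1 + 2 * 1 + 2 * 1 + v + n + x + 3 * 1 + y + t
        = 172 + (y - 1 + t) by omega, fw_ge] at this
    exact this
  rw [show 8 * 1 + 1 + 1 + 1 + 1 + v = 12 + v by omega] at h8
  rw [show 9 * 1 + 1 + 1 + 1 + 1 + v + n = 12 + v + 1 + n by omega] at h9
  have p8 := fw_three h8.symm
  have p9 := fw_three h9.symm
  obtain ⟨hn4, hw⟩ := fc4 (12 + v) (by omega) n (by omega) (by omega) hn (by omega)
    (by rw [← fw_lt (by omega)]; exact h8.symm) (by rw [← fw_lt (by omega)]; exact h9.symm)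
    (by
      intro t ht
      have := hN t ht
      rw [show 12 + v + 1 + t = 13 + v + t by omega, ← fw_lt (by omega), this]
      exact toe_le _)
  subst hn4
  have w0 := hN 0 (by omega)
  have w1 := hN 1 (by omega)
  have w2 := hN 2 (by omega)
  have w3 := hN 3 (by omega)
  rw [fw_lt (by omega)] at w0 w1 w2 w3
  rw [show 13 + v + 0 = 12 + v + 1 by omega] at w0
  rw [show 13 + v + 1 = 12 + v + 2 by omega] at w1
  rw [show 13 + v + 2 = 12 + v + 3 by omega] at w2
  rw [show 13 + v + 3 = 12 + v + 4 by omega] at w3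
  refine toe_not_bad4 1 (le_refl 1) (y - 1) ⟨?_, ?_⟩
  · intro t h1 h2
    omega
  · rw [w0, w1, w2, w3] at hw
    rcases hw with h | h
    · left; exact ⟨h.1, h.2.1, h.2.2⟩
    · right; exact ⟨h.1, h.2.1, h.2.2⟩

/-- The case of the later blocks. -/
theorem case1 {j m0 m1 m2 m3 v n x d y : ℕ} (hj : j < 7)
    (H : Inst fw (52 + 16 * j) 1 m0 m1 m2 m3 v n x d y) : False := by
  obtain ⟨-, hm0, hm1, hm2, hm3, hv, hn, hx, hd, hy, -, -, -, b4, b5, b6, b7, b8, b9, c0, c1, c2,
    c3, e1, e2, f1⟩ := H
  obtain ⟨hb, hl6, hl8, hl10, -, -⟩ := uc_block j hj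
  have h9 := b9 0 (by omega)
  rw [Nat.add_zero, fw_lt (by omega), hb] at h9
  have h9' := fw_marker hj h9.symm
  have k0 : m0 = 1 := by omega
  have k1 : m1 = 1 := by omega
  have k2 : m2 = 1 := by omega
  have k3 : m3 = 1 := by omega
  have k4 : v = 1 := by omega
  have k5 : n = 1 := by omega
  subst k0 k1 k2 k3 k4 k5
  obtain ⟨s, hs⟩ : ∃ s, s = 52 + 16 * j + 16 + x := ⟨_, rfl⟩
  obtain ⟨m, hm⟩ : ∃ m, m = d + 1 := ⟨_, rfl⟩
  have g0 : uc (52 + 16 * j + 4) = fw s := by
    have := c0 0 (by omega)
    rw [fw_lt (by omega)] at this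
    convert this using 2 <;> omega
  have g1 : uc (52 + 16 * j + 6) = fw (s + m) := by
    have := c1 0 (by omega)
    rw [fw_lt (by omega)] at this
    convert this using 2 <;> omega
  have g2 : uc (52 + 16 * j + 8) = fw (s + 2 * m) := by
    have := c2 0 (by omega)
    rw [fw_lt (by omega)] at this
    convert this using 2 <;> omega
  have g3 : uc (52 + 16 * j + 10) = fw (s + 3 * m) := by
    have := c3 0 (by omega)
    rw [fw_lt (by omega)] at this
    convert this using 2 <;> omega
  have E1 : ∀ t, 1 ≤ t → t < m → fw (s + t) = fw (s + m + t) := by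
    intro t h1 h2
    have := e1 (t - 1) (by omega)
    convert this using 2 <;> omega
  have E2 : ∀ t, 1 ≤ t → t < m → fw (s + m + t) = fw (s + 2 * m + t) := by
    intro t h1 h2
    rw [← E1 t h1 h2]
    have := e2 (t - 1) (by omega)
    convert this using 2 <;> omega
  have hw := uc_windows j hj
  rw [g0, g1, g2, g3] at hw
  by_cases hs1 : 172 ≤ s
  · -- inside the tail
    obtain ⟨r, rfl⟩ := Nat.exists_eq_add_of_le hs1
    have hle := toe_le r
    rw [fw_ge] at hw
    rcases hw with hw | hw
    · refine toe_not_bad4 m (by omega) r ⟨?_, ?_⟩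
      · intro t h1 h2
        have a1 := E1 t h1 h2
        have a2 := E2 t h1 h2
        rw [show 172 + r + t = 172 + (r + t) by ring,
          show 172 + r + m + t = 172 + (r + m + t) by ring, fw_ge, fw_ge] at a1
        rw [show 172 + r + m + t = 172 + (r + m + t) by ring,
          show 172 + r + 2 * m + t = 172 + (r + 2 * m + t) by ring, fw_ge, fw_ge] at a2
        exact ⟨a1, a2⟩
      · rw [show 172 + r + m = 172 + (r + m) by ring,
          show 172 + r + 2 * m = 172 + (r + 2 * m) by ring,
          show 172 + r + 3 * m = 172 + (r + 3 * m) by ring, fw_ge, fw_ge, fw_ge] at hw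
        exact hw
    · omega
  · by_cases hs2 : s = 171
    · -- at the anchor
      subst hs2
      rw [fw171] at hw
      have hw' : (fw (171 + m) = 0 ∧ fw (171 + 2 * m) = 1 ∧ fw (171 + 3 * m) = 1 ∨
        fw (171 + m) = 0 ∧ fw (171 + 2 * m) = 0) := by
        rcases hw with hw | hw
        · omega
        · exact hw.2
      refine toe_not_bad3 m (by omega) ⟨?_, ?_⟩
      · intro t ht
        have a1 := E1 (t + 1) (by omega) (by omega)
        have a2 := E2 (t + 1) (by omega) (by omega)
        rw [show 171 + (t + 1) = 172 + t by ring,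
          show 171 + m + (t + 1) = 172 + (m + t) by ring, fw_ge, fw_ge] at a1
        rw [show 171 + m + (t + 1) = 172 + (m + t) by ring,
          show 171 + 2 * m + (t + 1) = 172 + (2 * m + t) by ring, fw_ge, fw_ge] at a2
        exact ⟨a1, a2⟩
      · rw [show 171 + m = 172 + (m - 1) by omega,
          show 171 + 2 * m = 172 + (2 * m - 1) by omega,
          show 171 + 3 * m = 172 + (3 * m - 1) by omega, fw_ge, fw_ge, fw_ge] at hw'
        exact hw'
    · -- inside the prefix
      have hlt : s + 2 * m + 1 < 172 := by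
        by_contra hc
        have h171 : fw 171 ≤ 1 := by
          by_cases q1 : s + m < 171
          · by_cases q2 : s + 2 * m < 171
            · omega
            · by_cases q3 : s + 2 * m = 171
              · rw [← q3, ← g2]; exact hl8
              · have := E2 (171 - s - m) (by omega) (by omega)
                rw [show s + m + (171 - s - m) = 171 by omega] at this
                rw [this]
                exact fw_ge_le (by omega)
          · by_cases q2 : s + m = 171
            · rw [← q2, ← g1]; exact hl6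
            · have a1 := E1 (171 - s) (by omega) (by omega)
              have a2 := E2 (171 - s) (by omega) (by omega)
              rw [show s + (171 - s) = 171 by omega] at a1
              rw [a1, a2]
              exact fw_ge_le (by omega)
        rw [fw171] at h171
        omega
      refine fc3 j s m hj (by omega) (by omega) hlt ?_ ?_ ?_ ?_ ?_ ?_
      · rw [g0, fw_lt (by omega)]
      · rw [g1, fw_lt (by omega)]
      · rw [g2, fw_lt (by omega)]
      · by_cases h : 172 ≤ s + 3 * m
        · left; exact h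
        · right; rw [g3, fw_lt (by omega)]
      · apply rng_of
        intro t ht
        have := E1 (t + 1) (by omega) (by omega)
        rw [fw_lt (by omega), fw_lt (by omega)] at this
        convert this using 2 <;> ring
      · apply rng_of
        intro t ht
        have := E2 (t + 1) (by omega) (by omega)
        rw [fw_lt (by omega), fw_lt (by omega)] at this
        convert this using 2 <;> ring

/-- The word avoids the pattern. -/
theorem fw_avoids {i q m0 m1 m2 m3 v n x d y : ℕ} (H : Inst fw i q m0 m1 m2 m3 v n x d y) :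
    False := by
  obtain ⟨rfl, rfl | ⟨j, hj, rfl⟩⟩ := step1 H
  · exact case0 H
  · exact case1 hj H

end Pool.Agent.MP554eee
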