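import Mathlib

set_option autoImplicit false

/-! Toeplitz word over two letters with period pattern 0 1 ?, and the repetition
constraints that it satisfies. -/

namespace Pool.Agent.MP554eee

/-- The Toeplitz word: letter `0` at positions `3j`, letter `1` at positions `3j+1`, and a copy of
the word itself at the positions `3j+2`. -/
def toe (n : ℕ) : ℕ := if n % 3 = 2 then toe (n / 3) else n % 3
termination_by n
decreasing_by omega

theorem toe_zero (j : ℕ) : toe (3 * j) = 0 := by
  rw [toe]; have : (3 * j) % 3 = 0 := by omega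
  rw [if_neg (by omega)]; exact this

theorem toe_one (j : ℕ) : toe (3 * j + 1) = 1 := by
  rw [toe]; have : (3 * j + 1) % 3 = 1 := by omega
  rw [if_neg (by omega)]; exact this

theorem toe_two (j : ℕ) : toe (3 * j + 2) = toe j := by
  rw [toe]; rw [if_pos (by omega)]; congr 1; omega

theorem toe_le (n : ℕ) : toe n ≤ 1 := by
  induction n using Nat.strong_induction_on with
  | _ n ih =>
    obtain ⟨j, rfl | rfl | rfl⟩ : ∃ j, n = 3 * j ∨ n = 3 * j + 1 ∨ n = 3 * j + 2 :=
      ⟨n / 3, by omega⟩
    · rw [toe_zero]; omega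
    · rw [toe_one]
    · rw [toe_two]; exact ih j (by omega)

/-- value at a position of residue zero -/
theorem toe_mod0 {n : ℕ} (h : n % 3 = 0) : toe n = 0 := by
  obtain ⟨j, rfl⟩ : ∃ j, n = 3 * j := ⟨n / 3, by omega⟩
  exact toe_zero j

theorem toe_mod1 {n : ℕ} (h : n % 3 = 1) : toe n = 1 := by
  obtain ⟨j, rfl⟩ : ∃ j, n = 3 * j + 1 := ⟨n / 3, by omega⟩
  exact toe_one j

/-- Three positions in arithmetic progression with difference not divisible by `3` cannot carry
the same letter. -/
theorem toe_three (i m : ℕ) (hm : m % 3 ≠ 0) (h1 : toe i = toe (i + m))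
    (h2 : toe (i + m) = toe (i + 2 * m)) : False := by
  have key : ∀ a b c : ℕ, a % 3 = 0 → b % 3 = 1 → toe a = toe b → False := by
    intro a b _ ha hb hab
    rw [toe_mod0 ha, toe_mod1 hb] at hab
    omega
  have hcase : (i % 3 = 0 ∨ (i + m) % 3 = 0 ∨ (i + 2 * m) % 3 = 0) ∧
      (i % 3 = 1 ∨ (i + m) % 3 = 1 ∨ (i + 2 * m) % 3 = 1) := by
    have hi : i % 3 = 0 ∨ i % 3 = 1 ∨ i % 3 = 2 := by omega
    have hm' : m % 3 = 1 ∨ m % 3 = 2 := by omega
    rcases hi with hi | hi | hi <;> rcases hm' with hm' | hm' <;> constructor <;> omega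
  obtain ⟨h0 | h0 | h0, h1' | h1' | h1'⟩ := hcase
  · omega
  · exact key _ _ 0 h0 h1' h1
  · exact key _ _ 0 h0 h1' (h1.trans h2)
  · exact key _ _ 0 h0 h1' h1.symm
  · omega
  · exact key _ _ 0 h0 h1' h2
  · exact key _ _ 0 h0 h1' (h1.trans h2).symm
  · exact key _ _ 0 h0 h1' h2.symm
  · omega

/-- Three consecutive copies of a block `D` of length `m - 1`, the first starting at `i + 1`,
separated by single letters. -/
def Rep3 (f : ℕ → ℕ) (i m : ℕ) : Prop :=
  ∀ t, 1 ≤ t → t < m → f (i + t) = f (i + m + t) ∧ f (i + m + t) = f (i + 2 * m + t)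

/-- The letters around the three copies form one of the windows `0 1 z 1`, `1 z 0 0`. -/
def Bad4 (f : ℕ → ℕ) (i m : ℕ) : Prop :=
  Rep3 f i m ∧ ((f i = 0 ∧ f (i + m) = 1 ∧ f (i + 3 * m) = 1) ∨
    (f i = 1 ∧ f (i + 2 * m) = 0 ∧ f (i + 3 * m) = 0))

/-- The word starts with `D 0 D 1 D 1` or with `D 0 D 0 D`, where `D` has length `m - 1`. -/
def Bad3 (f : ℕ → ℕ) (m : ℕ) : Prop :=
  (∀ t, t + 1 < m → f t = f (m + t) ∧ f (m + t) = f (2 * m + t)) ∧
    ((f (m - 1) = 0 ∧ f (2 * m - 1) = 1 ∧ f (3 * m - 1) = 1) ∨
      (f (m - 1) = 0 ∧ f (2 * m - 1) = 0))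

theorem toe_not_bad4 (m : ℕ) : 1 ≤ m → ∀ i, ¬ Bad4 toe i m := by
  induction m using Nat.strong_induction_on with
  | _ m ih =>
    intro hm i hbad
    obtain ⟨hrep, hw⟩ := hbad
    by_cases h1 : m = 1
    · subst h1
      have hc : i % 3 = 0 ∨ i % 3 = 1 ∨ i % 3 = 2 := by omega
      rcases hw with ⟨ha, hb, hc'⟩ | ⟨ha, hb, hc'⟩
      · rcases hc with h | h | h
        · have := toe_mod0 (n := i + 3 * 1) (by omega)
          omega
        · have := toe_mod1 h
          omega
        · have := toe_mod0 (n := i + 1) (by omega)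
          omega
      · rcases hc with h | h | h
        · have := toe_mod0 h
          omega
        · have := toe_mod1 (n := i + 3 * 1) (by omega)
          omega
        · have := toe_mod1 (n := i + 2 * 1) (by omega)
          omega
    · by_cases h3 : m % 3 = 0
      · obtain ⟨m', rfl⟩ : ∃ m', m = 3 * m' := ⟨m / 3, by omega⟩
        have hc : i % 3 = 0 ∨ i % 3 = 1 ∨ i % 3 = 2 := by omega
        rcases hc with h | h | h
        · have e0 := toe_mod0 h
          have e1 := toe_mod0 (n := i + 3 * m') (by omega)
          have e3 := toe_mod0 (n := i + 3 * (3 * m')) (by omega)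
          omega
        · have e0 := toe_mod1 h
          have e1 := toe_mod1 (n := i + 2 * (3 * m')) (by omega)
          omega
        · obtain ⟨i', rfl⟩ : ∃ i', i = 3 * i' + 2 := ⟨i / 3, by omega⟩
          apply ih m' (by omega) (by omega) i'
          have conv : ∀ k, toe (3 * i' + 2 + 3 * k) = toe (i' + k) := by
            intro k
            rw [← toe_two (i' + k)]; congr 1; ring
          refine ⟨?_, ?_⟩
          · intro t ht1 ht2
            have := hrep (3 * t) (by omega) (by omega)
            have e1 : 3 * i' + 2 + 3 * m' + 3 * t = 3 * i' + 2 + 3 * (m' + t) := by ring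
            have e2 : 3 * i' + 2 + 2 * (3 * m') + 3 * t = 3 * i' + 2 + 3 * (2 * m' + t) := by ring
            rw [e1, e2, conv, conv, conv] at this
            rw [show i' + m' + t = i' + (m' + t) by ring,
              show i' + 2 * m' + t = i' + (2 * m' + t) by ring]
            exact this
          · have e0 : toe (3 * i' + 2) = toe i' := toe_two i'
            have e1 : toe (3 * i' + 2 + 3 * m') = toe (i' + m') := conv m'
            have e2 : toe (3 * i' + 2 + 2 * (3 * m')) = toe (i' + 2 * m') := by
              rw [← conv]; congr 1; ring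
            have e3 : toe (3 * i' + 2 + 3 * (3 * m')) = toe (i' + 3 * m') := by
              rw [← conv]
            rw [e0, e1, e2, e3] at hw
            exact hw
      · have := hrep 1 (by omega) (by omega)
        refine toe_three (i + 1) m h3 ?_ ?_
        · rw [this.1]; congr 1; ring
        · rw [show i + 1 + m = i + m + 1 by ring, this.2]; congr 1; ring

theorem toe_not_bad3 (m : ℕ) : 1 ≤ m → ¬ Bad3 toe m := by
  induction m using Nat.strong_induction_on with
  | _ m ih =>
    intro hm hbad
    obtain ⟨hrep, hw⟩ := hbad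
    by_cases h1 : m = 1
    · subst h1
      have e1 : toe 1 = 1 := toe_one 0
      have e0 : toe 0 = 0 := toe_zero 0
      have e2 : toe 2 = 0 := by
        have := toe_two 0
        simpa [e0] using this
      rcases hw with ⟨ha, hb, hc⟩ | ⟨ha, hb⟩
      · simp at hc
        omega
      · simp at hb
        omega
    · by_cases h3 : m % 3 = 0
      · obtain ⟨m', rfl⟩ : ∃ m', m = 3 * m' := ⟨m / 3, by omega⟩
        apply ih m' (by omega) (by omega)
        have conv : ∀ k, toe (3 * k + 2) = toe k := toe_two
        refine ⟨?_, ?_⟩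
        · intro t ht
          have := hrep (3 * t + 2) (by omega)
          rw [show 3 * m' + (3 * t + 2) = 3 * (m' + t) + 2 by ring,
            show 2 * (3 * m') + (3 * t + 2) = 3 * (2 * m' + t) + 2 by ring, conv, conv, conv] at this
          exact this
        · have e1 : toe (3 * m' - 1) = toe (m' - 1) := by
            rw [← conv (m' - 1)]; congr 1; omega
          have e2 : toe (2 * (3 * m') - 1) = toe (2 * m' - 1) := by
            rw [← conv (2 * m' - 1)]; congr 1; omega
          have e3 : toe (3 * (3 * m') - 1) = toe (3 * m' - 1) := by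
            rw [← conv (3 * m' - 1)]; congr 1; omega
          rw [e1, e2, e3] at hw
          rw [e1]
          rcases hw with h | h
          · left
            refine ⟨h.1, h.2.1, ?_⟩
            have := h.2.2
            rw [e1] at this
            exact this
          · right; exact h
      · have := hrep 0 (by omega)
        refine toe_three 0 m h3 ?_ ?_
        · rw [this.1]; congr 1; ring
        · rw [show 0 + m = m + 0 by ring, this.2]; congr 1; ring

theorem toe_no_fourth (q : ℕ) : 1 ≤ q → ∀ i, ¬ (∀ t, t < 3 * q → toe (i + t) = toe (i + t + q)) := by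
  induction q using Nat.strong_induction_on with
  | _ q ih =>
    intro hq i h
    by_cases h3 : q % 3 = 0
    · obtain ⟨q', rfl⟩ : ∃ q', q = 3 * q' := ⟨q / 3, by omega⟩
      apply ih q' (by omega) (by omega) (i / 3)
      intro t ht
      have h0 : ∃ s, i + s = 3 * (i / 3 + t) + 2 ∧ s < 3 * (3 * q') := by
        refine ⟨3 * (i / 3 + t) + 2 - i, ?_, ?_⟩
        · omega
        · omega
      obtain ⟨s, hs, hs2⟩ := h0
      have := h s hs2
      rw [hs, toe_two, show 3 * (i / 3 + t) + 2 + 3 * q' = 3 * (i / 3 + t + q') + 2 by ring,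
        toe_two] at this
      exact this
    · have a := h 0 (by omega)
      have b := h q (by omega)
      refine toe_three i q h3 ?_ ?_
      · simpa using a
      · rw [b]; congr 1; ring

end Pool.Agent.MP554eee
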