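import Pool.Agent.Lib.MP_554eee_co.Avoid

set_option autoImplicit false

/-! A word that starts with `u 0 1 0` and avoids the pattern equals `u * toe`. -/

namespace Pool.Agent.MP554eee

/-- The repetition constraints that determine the Toeplitz word. -/
structure Good (f : ℕ → ℕ) : Prop where
  le : ∀ t, f t ≤ 1
  f0 : f 0 = 0
  f1 : f 1 = 1
  nb4 : ∀ m, 1 ≤ m → ∀ i, ¬ Bad4 f i m
  nb3 : ∀ m, 1 ≤ m → ¬ Bad3 f m

theorem Good.skeleton {f : ℕ → ℕ} (h : Good f) (k : ℕ) : f (3 * k) = 0 ∧ f (3 * k + 1) = 1 := by
  induction k with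
  | zero => exact ⟨h.f0, h.f1⟩
  | succ k ih =>
    obtain ⟨h0, h1⟩ := ih
    have e3 : f (3 * k + 3) = 0 := by
      have l3 := h.le (3 * k + 3)
      by_contra hc
      apply h.nb4 1 (le_refl 1) (3 * k)
      refine ⟨fun t _ _ => by omega, Or.inl ⟨h0, h1, ?_⟩⟩
      show f (3 * k + 3) = 1
      omega
    have e4 : f (3 * k + 4) = 1 := by
      have l4 := h.le (3 * k + 4)
      by_contra hc
      apply h.nb4 1 (le_refl 1) (3 * k + 1)
      refine ⟨fun t _ _ => by omega, Or.inr ⟨h1, ?_, ?_⟩⟩
      · show f (3 * k + 3) = 0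
        exact e3
      · show f (3 * k + 4) = 0
        omega
    exact ⟨e3, e4⟩

theorem Good.next {f : ℕ → ℕ} (h : Good f) : Good (fun j => f (3 * j + 2)) := by
  have sk := h.skeleton
  have l2 := h.le 2
  have l5 := h.le 5
  have e2 : f 2 = 0 := by
    by_contra hc
    apply h.nb3 1 (le_refl 1)
    refine ⟨fun t _ => by omega, Or.inl ⟨h.f0, h.f1, ?_⟩⟩
    show f 2 = 1
    omega
  have e5 : f 5 = 1 := by
    by_contra hc
    apply h.nb3 3 (by omega)
    refine ⟨?_, Or.inr ⟨e2, ?_⟩⟩
    · intro t ht
      have s0 := sk 0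
      have s1 := sk 1
      have s2 := sk 2
      simp only [Nat.mul_zero, Nat.zero_add] at s0
      simp only [Nat.mul_one] at s1
      have ht' : t < 2 := by omega
      interval_cases t
      · simp only [Nat.add_zero]
        exact ⟨s0.1.trans s1.1.symm, s1.1.trans s2.1.symm⟩
      · exact ⟨s0.2.trans s1.2.symm, s1.2.trans s2.2.symm⟩
    · show f 5 = 0
      omega
  have mod_eq : ∀ a b, a % 3 = b % 3 → a % 3 ≠ 2 → f a = f b := by
    intro a b hab ha
    have hc : a % 3 = 0 ∨ a % 3 = 1 := by omega
    rcases hc with hc | hc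
    · have ea := (sk (a / 3)).1
      have eb := (sk (b / 3)).1
      rw [show 3 * (a / 3) = a by omega] at ea
      rw [show 3 * (b / 3) = b by omega] at eb
      rw [ea, eb]
    · have ea := (sk (a / 3)).2
      have eb := (sk (b / 3)).2
      rw [show 3 * (a / 3) + 1 = a by omega] at ea
      rw [show 3 * (b / 3) + 1 = b by omega] at eb
      rw [ea, eb]
  refine ⟨fun t => h.le _, e2, e5, ?_, ?_⟩
  · intro m hm i hbad
    obtain ⟨hrep, hw⟩ := hbad
    apply h.nb4 (3 * m) (by omega) (3 * i + 2)
    refine ⟨?_, ?_⟩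
    · intro t h1 h2
      by_cases ht : t % 3 = 0
      · obtain ⟨s, rfl⟩ : ∃ s, t = 3 * s := ⟨t / 3, by omega⟩
        have := hrep s (by omega) (by omega)
        simp only at this
        rw [show 3 * i + 2 + 3 * s = 3 * (i + s) + 2 by ring,
          show 3 * i + 2 + 3 * m + 3 * s = 3 * (i + m + s) + 2 by ring,
          show 3 * i + 2 + 2 * (3 * m) + 3 * s = 3 * (i + 2 * m + s) + 2 by ring]
        exact this
      · exact ⟨mod_eq _ _ (by omega) (by omega), mod_eq _ _ (by omega) (by omega)⟩
    · simp only at hw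
      rw [show 3 * i + 2 + 3 * m = 3 * (i + m) + 2 by ring,
        show 3 * i + 2 + 2 * (3 * m) = 3 * (i + 2 * m) + 2 by ring,
        show 3 * i + 2 + 3 * (3 * m) = 3 * (i + 3 * m) + 2 by ring]
      exact hw
  · intro m hm hbad
    obtain ⟨hrep, hw⟩ := hbad
    apply h.nb3 (3 * m) (by omega)
    refine ⟨?_, ?_⟩
    · intro t h1
      by_cases ht : t % 3 = 2
      · obtain ⟨s, rfl⟩ : ∃ s, t = 3 * s + 2 := ⟨t / 3, by omega⟩
        have := hrep s (by omega)
        simp only at this
        rw [show 3 * m + (3 * s + 2) = 3 * (m + s) + 2 by ring,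
          show 2 * (3 * m) + (3 * s + 2) = 3 * (2 * m + s) + 2 by ring]
        exact this
      · exact ⟨mod_eq _ _ (by omega) (by omega), mod_eq _ _ (by omega) (by omega)⟩
    · simp only at hw
      rw [show 3 * m - 1 = 3 * (m - 1) + 2 by omega,
        show 2 * (3 * m) - 1 = 3 * (2 * m - 1) + 2 by omega,
        show 3 * (3 * m) - 1 = 3 * (3 * m - 1) + 2 by omega]
      exact hw

/-- The constraints determine the word. -/
theorem Good.eq_toe (N : ℕ) : ∀ f : ℕ → ℕ, Good f → f N = toe N := by
  induction N using Nat.strong_induction_on with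
  | _ N ih =>
    intro f h
    have sk := h.skeleton (N / 3)
    obtain hN | hN | hN : N % 3 = 0 ∨ N % 3 = 1 ∨ N % 3 = 2 := by omega
    · rw [toe_mod0 hN]
      rw [show 3 * (N / 3) = N by omega] at sk
      exact sk.1
    · rw [toe_mod1 hN]
      rw [show 3 * (N / 3) + 1 = N by omega] at sk
      exact sk.2
    · have := ih (N / 3) (by omega) _ h.next
      obtain ⟨k, rfl⟩ : ∃ k, N = 3 * k + 2 := ⟨N / 3, by omega⟩
      rw [toe_two, show (3 * k + 2) / 3 = k by omega] at *
      exact this

theorem uc_block_full : ∀ j < 7, uc (52 + 16 * j) = 4 + j ∧ uc (52 + 16 * j + 1) = 4 + j ∧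
    uc (52 + 16 * j + 2) = 4 + j ∧ uc (52 + 16 * j + 3) = 4 + j ∧ uc (52 + 16 * j + 5) = 4 + j ∧
    uc (52 + 16 * j + 7) = 4 + j ∧ uc (52 + 16 * j + 9) = 4 + j ∧ uc (52 + 16 * j + 11) = 4 + j ∧
    uc (52 + 16 * j + 13) = 4 + j ∧ uc (52 + 16 * j + 15) = 4 + j := by
  decide +kernel

theorem uc_congr {a b c : ℕ} (h : uc a = c) (e : a = b) : uc b = c := by
  subst e; exact h

theorem same_one {g : ℕ → ℕ} {a b : ℕ} (h : g a = g b) : Same g a b 1 := by
  intro t ht
  have : t = 0 := by omega
  subst this
  exact h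

theorem same_uc {g : ℕ → ℕ} (hgu : ∀ t, t < 172 → g t = uc t) {a b c : ℕ} (ha : a < 172)
    (hb : b < 172) (h1 : uc a = c) (h2 : uc b = c) : Same g a b 1 := by
  apply same_one
  rw [hgu a ha, hgu b hb, h1, h2]

/-- A declared window cannot occur later. -/
theorem no_window (g : ℕ → ℕ) (hg : ∀ t, t < 175 → g t = fw t)
    (hno : ∀ i q m0 m1 m2 m3 v n x d y : ℕ, ¬ Inst g i q m0 m1 m2 m3 v n x d y)
    (j : ℕ) (hj : j < 7) (s m k : ℕ) (hs : 171 ≤ s) (hm : 2 ≤ m) (hk : g (172 + 3 * k) = 0)
    (hk2 : s + 3 * m + 1 < 172 + 3 * k)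
    (h0 : g s = uc (52 + 16 * j + 4)) (h1 : g (s + m) = uc (52 + 16 * j + 6))
    (h2 : g (s + 2 * m) = uc (52 + 16 * j + 8)) (h3 : g (s + 3 * m) = uc (52 + 16 * j + 10))
    (hD : Rep3 g s m) : False := by
  have hgu : ∀ t, t < 172 → g t = uc t := by
    intro t ht
    rw [hg t (by omega), fw_lt ht]
  obtain ⟨a0, a1, a2, a3, a5, a7, a9, a11, a13, a15⟩ := uc_block_full j hj
  obtain ⟨-, -, -, -, -, a14⟩ := uc_block j hj
  refine hno (52 + 16 * j) 1 1 1 1 1 1 1 (s - (52 + 16 * j + 16)) (m - 1)
    (172 + 3 * k - (s + 3 * m + 1)) ⟨le_refl _, le_refl _, le_refl _, le_refl _, le_refl _,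
    le_refl _, le_refl _, by omega, by omega, by omega, ?_, ?_, ?_, ?_, ?_, ?_, ?_, ?_, ?_, ?_,
    ?_, ?_, ?_, ?_, ?_, ?_⟩
  · exact same_uc hgu (by omega) (by omega) a0 (uc_congr a1 (by omega))
  · exact same_uc hgu (by omega) (by omega) a0 (uc_congr a2 (by omega))
  · exact same_uc hgu (by omega) (by omega) a0 (uc_congr a3 (by omega))
  · exact same_uc hgu (by omega) (by omega) a0 (uc_congr a5 (by omega))
  · exact same_uc hgu (by omega) (by omega) a0 (uc_congr a7 (by omega))
  · exact same_uc hgu (by omega) (by omega) a0 (uc_congr a9 (by omega))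
  · exact same_uc hgu (by omega) (by omega) a0 (uc_congr a11 (by omega))
  · exact same_uc hgu (by omega) (by omega) a0 (uc_congr a13 (by omega))
  · exact same_uc hgu (by omega) (by omega) a0 (uc_congr a15 (by omega))
  · apply same_one
    rw [hgu (52 + 16 * j + 4 * 1) (by omega), ← h0]; congr 1; omega
  · apply same_one
    rw [hgu (52 + 16 * j + 5 * 1 + 1) (by omega), ← h1]; congr 1; omega
  · apply same_one
    rw [hgu (52 + 16 * j + 6 * 1 + 1 + 1) (by omega), ← h2]; congr 1; omega
  · apply same_one
    rw [hgu (52 + 16 * j + 7 * 1 + 1 + 1 + 1) (by omega), ← h3]; congr 1; omega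
  · intro t ht
    have := (hD (t + 1) (by omega) (by omega)).1
    convert this using 2 <;> omega
  · intro t ht
    have := (hD (t + 1) (by omega) (by omega)).1.trans (hD (t + 1) (by omega) (by omega)).2
    convert this using 2 <;> omega
  · apply same_one
    rw [hgu (52 + 16 * j + 9 * 1 + 1 + 1 + 1 + 1 + 1) (by omega)]
    rw [show 52 + 16 * j + 9 * 1 + 1 + 1 + 1 + 1 + 1 = 52 + 16 * j + 14 by omega, a14, ← hk]
    congr 1; omega

/-- The entries of the first block cannot occur in the tail. -/
theorem no_entry (g : ℕ → ℕ) (hg : ∀ t, t < 175 → g t = fw t)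
    (hno : ∀ i q m0 m1 m2 m3 v n x d y : ℕ, ¬ Inst g i q m0 m1 m2 m3 v n x d y)
    (v n t : ℕ) (hv : 1 ≤ v) (hn : 1 ≤ n) (hvn : 13 + v + n < 52) (h8 : uc (12 + v) = 3)
    (h9 : uc (13 + v + n) = 3) (hN : ∀ r, r < n → uc (13 + v + r) = g (172 + t + r)) : False := by
  have hgu : ∀ t, t < 172 → g t = uc t := by
    intro t ht
    rw [hg t (by omega), fw_lt ht]
  have u : uc 0 = 3 ∧ uc 1 = 3 ∧ uc 2 = 3 ∧ uc 3 = 3 ∧ uc 4 = 2 ∧ uc 5 = 3 ∧ uc 6 = 2 ∧ uc 7 = 3 ∧
      uc 8 = 2 ∧ uc 9 = 3 ∧ uc 10 = 1 ∧ uc 11 = 3 ∧ uc 164 = 2 ∧ uc 165 = 0 ∧ uc 166 = 2 ∧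
      uc 167 = 0 ∧ uc 168 = 2 ∧ uc 169 = 0 ∧ uc 170 = 1 := by decide +kernel
  obtain ⟨u0, u1, u2, u3, u4, u5, u6, u7, u8, u9, u10, u11, u164, u165, u166, u167, u168, u169,
    u170⟩ := u
  refine hno 0 1 1 1 1 1 v n (150 - v - n) 1 (t + 1) ⟨le_refl _, le_refl _, le_refl _, le_refl _,
    le_refl _, hv, hn, by omega, by omega, by omega, ?_, ?_, ?_, ?_, ?_, ?_, ?_, ?_, ?_, ?_,
    ?_, ?_, ?_, ?_, ?_, ?_⟩
  · exact same_uc hgu (by omega) (by omega) u0 (uc_congr u1 (by omega))
  · exact same_uc hgu (by omega) (by omega) u0 (uc_congr u2 (by omega))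
  · exact same_uc hgu (by omega) (by omega) u0 (uc_congr u3 (by omega))
  · exact same_uc hgu (by omega) (by omega) u0 (uc_congr u5 (by omega))
  · exact same_uc hgu (by omega) (by omega) u0 (uc_congr u7 (by omega))
  · exact same_uc hgu (by omega) (by omega) u0 (uc_congr u9 (by omega))
  · exact same_uc hgu (by omega) (by omega) u0 (uc_congr u11 (by omega))
  · exact same_uc hgu (by omega) (by omega) u0 (uc_congr h8 (by omega))
  · exact same_uc hgu (by omega) (by omega) u0 (uc_congr h9 (by omega))
  · exact same_uc hgu (by omega) (by omega) (uc_congr u4 (by omega)) (uc_congr u164 (by omega))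
  · exact same_uc hgu (by omega) (by omega) (uc_congr u6 (by omega)) (uc_congr u166 (by omega))
  · exact same_uc hgu (by omega) (by omega) (uc_congr u8 (by omega)) (uc_congr u168 (by omega))
  · exact same_uc hgu (by omega) (by omega) (uc_congr u10 (by omega)) (uc_congr u170 (by omega))
  · exact same_uc hgu (by omega) (by omega) (uc_congr u165 (by omega)) (uc_congr u167 (by omega))
  · exact same_uc hgu (by omega) (by omega) (uc_congr u165 (by omega)) (uc_congr u169 (by omega))
  · intro r hr
    have := hN r hr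
    rw [hgu _ (by omega)]
    rw [show 0 + 9 * 1 + 1 + 1 + 1 + 1 + v + r = 13 + v + r by omega, this]
    congr 1; omega

/-- The tail satisfies all constraints. -/
theorem good_of_no (g : ℕ → ℕ) (hlt : ∀ t, g t < 11) (hg : ∀ t, t < 175 → g t = fw t)
    (hno : ∀ i q m0 m1 m2 m3 v n x d y : ℕ, ¬ Inst g i q m0 m1 m2 m3 v n x d y) :
    Good (fun t => g (172 + t)) := by
  have letter : ∀ v c : ℕ, 1 ≤ v → 14 + v < 52 → uc (12 + v) = 3 → uc (14 + v) = 3 →
      uc (13 + v) = c → ∀ t, g (172 + t) ≠ c := by
    intro v c hv h1 h2 h3 h4 t hc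
    refine no_entry g hg hno v 1 t hv (le_refl 1) (by omega) h2 (by
      rw [show 13 + v + 1 = 14 + v by ring]; exact h3) ?_
    intro r hr
    have : r = 0 := by omega
    subst this
    simp only [Nat.add_zero]
    rw [h4, hc]
  have word : ∀ v a b c d : ℕ, 1 ≤ v → 17 + v < 52 → uc (12 + v) = 3 → uc (17 + v) = 3 →
      uc (13 + v) = a → uc (14 + v) = b → uc (15 + v) = c → uc (16 + v) = d →
      ∀ t, g (172 + t) = a → g (172 + (t + 1)) = b → g (172 + (t + 2)) = c →
      g (172 + (t + 3)) = d → False := by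
    intro v a b c d hv h1 h2 h3 ha hb hc hd t ga gb gc gd
    refine no_entry g hg hno v 4 t hv (by omega) (by omega) h2 (by
      rw [show 13 + v + 4 = 17 + v by ring]; exact h3) ?_
    intro r hr
    interval_cases r
    · simp only [Nat.add_zero]; rw [ha, ga]
    · rw [show 13 + v + 1 = 14 + v by ring, hb, show 172 + t + 1 = 172 + (t + 1) by ring, gb]
    · rw [show 13 + v + 2 = 15 + v by ring, hc, show 172 + t + 2 = 172 + (t + 2) by ring, gc]
    · rw [show 13 + v + 3 = 16 + v by ring, hd, show 172 + t + 3 = 172 + (t + 3) by ring, gd]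
  have le1 : ∀ t, g (172 + t) ≤ 1 := by
    intro t
    have l := hlt (172 + t)
    have n2 := letter 1 2 (by omega) (by omega) (by decide +kernel) (by decide +kernel)
      (by decide +kernel) t
    have n4 := letter 3 4 (by omega) (by omega) (by decide +kernel) (by decide +kernel)
      (by decide +kernel) t
    have n5 := letter 5 5 (by omega) (by omega) (by decide +kernel) (by decide +kernel)
      (by decide +kernel) t
    have n6 := letter 7 6 (by omega) (by omega) (by decide +kernel) (by decide +kernel)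
      (by decide +kernel) t
    have n7 := letter 9 7 (by omega) (by omega) (by decide +kernel) (by decide +kernel)
      (by decide +kernel) t
    have n8 := letter 11 8 (by omega) (by omega) (by decide +kernel) (by decide +kernel)
      (by decide +kernel) t
    have n9 := letter 13 9 (by omega) (by omega) (by decide +kernel) (by decide +kernel)
      (by decide +kernel) t
    have n10 := letter 15 10 (by omega) (by omega) (by decide +kernel) (by decide +kernel)
      (by decide +kernel) t
    have n3 := letter 37 3 (by omega) (by omega) (by decide +kernel) (by decide +kernel)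
      (by decide +kernel) t
    omega
  have z0 : g 172 = 0 := by
    rw [hg 172 (by omega)]; exact (fw_ge 0).trans (toe_zero 0)
  have z1 : g 173 = 1 := by
    rw [hg 173 (by omega)]; exact (fw_ge 1).trans (toe_one 0)
  have z2 : g 174 = 0 := by
    rw [hg 174 (by omega)]; exact (fw_ge 2).trans ((toe_two 0).trans (toe_zero 0))
  -- the four forbidden words
  have W1 := word 17 0 1 0 1 (by omega) (by omega) (by decide +kernel) (by decide +kernel)
    (by decide +kernel) (by decide +kernel) (by decide +kernel) (by decide +kernel)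
  have W2 := word 22 0 1 1 1 (by omega) (by omega) (by decide +kernel) (by decide +kernel)
    (by decide +kernel) (by decide +kernel) (by decide +kernel) (by decide +kernel)
  have W3 := word 27 1 0 0 0 (by omega) (by omega) (by decide +kernel) (by decide +kernel)
    (by decide +kernel) (by decide +kernel) (by decide +kernel) (by decide +kernel)
  have W4 := word 32 1 1 0 0 (by omega) (by omega) (by decide +kernel) (by decide +kernel)
    (by decide +kernel) (by decide +kernel) (by decide +kernel) (by decide +kernel)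
  have B1 : ∀ i, ¬ Bad4 (fun t => g (172 + t)) i 1 := by
    intro i hbad
    obtain ⟨-, hw⟩ := hbad
    simp only [Nat.mul_one] at hw
    have l1 := le1 (i + 1)
    have l2 := le1 (i + 2)
    rcases hw with ⟨ha, hb, hd⟩ | ⟨ha, hc, hd⟩
    · have hz : g (172 + (i + 2)) = 0 ∨ g (172 + (i + 2)) = 1 := by omega
      rcases hz with hz | hz
      · exact W1 i ha hb hz hd
      · exact W2 i ha hb hz hd
    · have hz : g (172 + (i + 1)) = 0 ∨ g (172 + (i + 1)) = 1 := by omega
      rcases hz with hz | hz
      · exact W3 i ha hz hc hd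
      · exact W4 i ha hz hc hd
  -- the skeleton of the tail
  have sk : ∀ k, g (172 + 3 * k) = 0 ∧ g (172 + (3 * k + 1)) = 1 := by
    intro k
    induction k with
    | zero => exact ⟨z0, z1⟩
    | succ k ih =>
      obtain ⟨h0, h1⟩ := ih
      have e3 : g (172 + (3 * k + 3)) = 0 := by
        have l3 := le1 (3 * k + 3)
        by_contra hc
        apply B1 (3 * k)
        refine ⟨fun t _ _ => by omega, Or.inl ⟨h0, h1, ?_⟩⟩
        show g (172 + (3 * k + 3)) = 1
        omega
      have e4 : g (172 + (3 * k + 4)) = 1 := by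
        have l4 := le1 (3 * k + 4)
        by_contra hc
        apply B1 (3 * k + 1)
        refine ⟨fun t _ _ => by omega, Or.inr ⟨h1, ?_, ?_⟩⟩
        · show g (172 + (3 * k + 3)) = 0
          exact e3
        · show g (172 + (3 * k + 4)) = 0
          omega
      exact ⟨e3, e4⟩
  refine ⟨le1, z0, z1, ?_, ?_⟩
  · intro m hm i hbad
    by_cases h1 : m = 1
    · subst h1; exact B1 i hbad
    · obtain ⟨hrep, hw⟩ := hbad
      simp only at hw
      have hk := (sk (i + m + 1)).1
      have hrep' : Rep3 g (172 + i) m := by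
        intro t h1 h2
        have := hrep t h1 h2
        simp only at this
        rw [show 172 + i + t = 172 + (i + t) by ring, show 172 + i + m + t = 172 + (i + m + t) by ring,
          show 172 + i + 2 * m + t = 172 + (i + 2 * m + t) by ring]
        exact this
      have l1 := le1 (i + m)
      have l2 := le1 (i + 2 * m)
      rw [show 172 + (i + m) = 172 + i + m by ring] at l1 hw
      rw [show 172 + (i + 2 * m) = 172 + i + 2 * m by ring] at l2 hw
      rw [show 172 + (i + 3 * m) = 172 + i + 3 * m by ring] at hw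
      rcases hw with ⟨ha, hb, hd⟩ | ⟨ha, hc, hd⟩
      · have hz : g (172 + i + 2 * m) = 0 ∨ g (172 + i + 2 * m) = 1 := by omega
        rcases hz with hz | hz
        · exact no_window g hg hno 0 (by omega) (172 + i) m (i + m + 1) (by omega) (by omega) hk
            (by omega) (ha.trans (by decide +kernel)) (hb.trans (by decide +kernel))
            (hz.trans (by decide +kernel)) (hd.trans (by decide +kernel)) hrep'
        · exact no_window g hg hno 1 (by omega) (172 + i) m (i + m + 1) (by omega) (by omega) hk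
            (by omega) (ha.trans (by decide +kernel)) (hb.trans (by decide +kernel))
            (hz.trans (by decide +kernel)) (hd.trans (by decide +kernel)) hrep'
      · have hz : g (172 + i + m) = 0 ∨ g (172 + i + m) = 1 := by omega
        rcases hz with hz | hz
        · exact no_window g hg hno 2 (by omega) (172 + i) m (i + m + 1) (by omega) (by omega) hk
            (by omega) (ha.trans (by decide +kernel)) (hz.trans (by decide +kernel))
            (hc.trans (by decide +kernel)) (hd.trans (by decide +kernel)) hrep'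
        · exact no_window g hg hno 3 (by omega) (172 + i) m (i + m + 1) (by omega) (by omega) hk
            (by omega) (ha.trans (by decide +kernel)) (hz.trans (by decide +kernel))
            (hc.trans (by decide +kernel)) (hd.trans (by decide +kernel)) hrep'
  · intro m hm hbad
    obtain ⟨hrep, hw⟩ := hbad
    simp only at hw
    by_cases h1 : m = 1
    · subst h1
      simp only [Nat.mul_one] at hw
      have hw' : (g 172 = 0 ∧ g 173 = 1 ∧ g 174 = 1) ∨ (g 172 = 0 ∧ g 173 = 0) := hw
      omega
    · have g171 : g 171 = 2 := by rw [hg 171 (by omega), fw171]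
      have hk := (sk (m + 1)).1
      have hrep' : Rep3 g 171 m := by
        intro t h1 h2
        have := hrep (t - 1) (by omega)
        simp only at this
        rw [show 172 + (t - 1) = 171 + t by omega, show 172 + (m + (t - 1)) = 171 + m + t by omega,
          show 172 + (2 * m + (t - 1)) = 171 + 2 * m + t by omega] at this
        exact this
      rw [show 172 + (m - 1) = 171 + m by omega, show 172 + (2 * m - 1) = 171 + 2 * m by omega,
        show 172 + (3 * m - 1) = 171 + 3 * m by omega] at hw
      have l3 := le1 (3 * m - 1)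
      rw [show 172 + (3 * m - 1) = 171 + 3 * m by omega] at l3
      rcases hw with ⟨ha, hb, hc⟩ | ⟨ha, hb⟩
      · exact no_window g hg hno 4 (by omega) 171 m (m + 1) (by omega) (by omega) hk
          (by omega) (g171.trans (by decide +kernel)) (ha.trans (by decide +kernel))
          (hb.trans (by decide +kernel)) (hc.trans (by decide +kernel)) hrep'
      · have hz : g (171 + 3 * m) = 0 ∨ g (171 + 3 * m) = 1 := by omega
        rcases hz with hz | hz
        · exact no_window g hg hno 5 (by omega) 171 m (m + 1) (by omega) (by omega) hk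
            (by omega) (g171.trans (by decide +kernel)) (ha.trans (by decide +kernel))
            (hb.trans (by decide +kernel)) (hz.trans (by decide +kernel)) hrep'
        · exact no_window g hg hno 6 (by omega) 171 m (m + 1) (by omega) (by omega) hk
            (by omega) (g171.trans (by decide +kernel)) (ha.trans (by decide +kernel))
            (hb.trans (by decide +kernel)) (hz.trans (by decide +kernel)) hrep'

/-- Uniqueness of the continuation. -/
theorem fw_unique (g : ℕ → ℕ) (hlt : ∀ t, g t < 11) (hg : ∀ t, t < 175 → g t = fw t)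
    (hno : ∀ i q m0 m1 m2 m3 v n x d y : ℕ, ¬ Inst g i q m0 m1 m2 m3 v n x d y) (t : ℕ) :
    g t = fw t := by
  by_cases h : t < 172
  · exact hg t (by omega)
  · obtain ⟨s, rfl⟩ := Nat.exists_eq_add_of_le (not_lt.mp h)
    rw [fw_ge]
    exact (good_of_no g hlt hg hno).eq_toe s

end Pool.Agent.MP554eee
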