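import Pool.Agent.Lib.MP_554eee_co.Toe

set_option autoImplicit false

/-! The prefix `u` (length `172`, letters `0..10`), coded by hexadecimal digits, least significant
digit first, the infinite word `u * toe`, and finite facts on the prefix. -/

namespace Pool.Agent.MP554eee

/-- The prefix, coded in base `16`. -/
def uN : ℕ :=
  0x21020202a0a2a1a0a0a2aaaa90929090909299998082818180828888707270707171777760626060606166665052515151505555404241404140444433300113000131110310103a3938373635343232313232323333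

/-- The letter of the prefix at position `t`. -/
@[irreducible] def uc (t : ℕ) : ℕ := (uN / 16 ^ t) % 16

/-- The infinite word, with letters coded by natural numbers. -/
def fw (t : ℕ) : ℕ := if t < 172 then uc t else toe (t - 172)

theorem fw_lt {t : ℕ} (h : t < 172) : fw t = uc t := by rw [fw, if_pos h]

theorem fw_ge (t : ℕ) : fw (172 + t) = toe t := by
  have h : ¬ (172 + t < 172) := by omega
  have h2 : 172 + t - 172 = t := by omega
  simp only [fw, if_neg h, h2]

theorem fw_ge_le {t : ℕ} (h : 172 ≤ t) : fw t ≤ 1 := by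
  obtain ⟨s, rfl⟩ := Nat.exists_eq_add_of_le h
  rw [fw_ge]; exact toe_le s

/-- The prefix has the same letters in `[a, a + n)` and `[b, b + n)`. -/
def rng : ℕ → ℕ → ℕ → Bool
  | _, _, 0 => true
  | a, b, n + 1 => (uc a == uc b) && rng (a + 1) (b + 1) n

theorem rng_of (n : ℕ) : ∀ a b : ℕ, (∀ t, t < n → uc (a + t) = uc (b + t)) → rng a b n = true := by
  induction n with
  | zero => intro a b _; rfl
  | succ n ih =>
    intro a b h
    simp only [rng, Bool.and_eq_true, beq_iff_eq]
    refine ⟨h 0 (by omega), ih _ _ ?_⟩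
    intro t ht
    have := h (t + 1) (by omega)
    rw [show a + 1 + t = a + (t + 1) by ring, show b + 1 + t = b + (t + 1) by ring]
    exact this

set_option synthInstance.maxSize 10000

/-- Fourth powers that start in the prefix. -/
theorem fc1 : ∀ i < 172, ∀ q < 58, 1 ≤ q → i + 3 * q < 172 →
    rng i (i + q) (min (3 * q) (172 - i - q)) = true →
    q = 1 ∧ (i = 0 ∨ ∃ j < 7, i = 52 + 16 * j) := by
  decide +kernel

/-- Equally spaced occurrences of the anchor letter. -/
theorem fc2 : ∀ s < 172, ∀ m < 60, 52 ≤ s → 2 ≤ m → s + 2 * m < 172 → uc s = 2 → uc (s + m) = 2 →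
    uc (s + 2 * m) = 2 → rng (s + 1) (s + m + 1) (m - 1) = true → s = 164 ∧ m = 2 := by
  decide +kernel

/-- Boolean form of: the window declared in block `j` matches at `s` with period `m`. -/
def chk3 (j s m : ℕ) : Bool :=
  (uc s == uc (52 + 16 * j + 4)) && ((uc (s + m) == uc (52 + 16 * j + 6)) &&
    ((uc (s + 2 * m) == uc (52 + 16 * j + 8)) &&
      ((Nat.ble 172 (s + 3 * m) || (uc (s + 3 * m) == uc (52 + 16 * j + 10))) &&
        (rng (s + 1) (s + m + 1) (m - 1) &&
          rng (s + m + 1) (s + 2 * m + 1) (min (m - 1) (171 - s - 2 * m))))))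

theorem fc3_aux : ∀ j < 7, ∀ s < 171, ∀ m < 86, 52 + 16 * j + 17 ≤ s → 2 ≤ m →
    s + 2 * m + 1 < 172 → chk3 j s m = false := by
  decide +kernel

/-- The declared windows do not occur later in the prefix. -/
theorem fc3 (j s m : ℕ) (hj : j < 7) (hs : 52 + 16 * j + 17 ≤ s) (hm : 2 ≤ m)
    (h : s + 2 * m + 1 < 172) (h0 : uc s = uc (52 + 16 * j + 4))
    (h1 : uc (s + m) = uc (52 + 16 * j + 6)) (h2 : uc (s + 2 * m) = uc (52 + 16 * j + 8))
    (h3 : 172 ≤ s + 3 * m ∨ uc (s + 3 * m) = uc (52 + 16 * j + 10))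
    (h4 : rng (s + 1) (s + m + 1) (m - 1) = true)
    (h5 : rng (s + m + 1) (s + 2 * m + 1) (min (m - 1) (171 - s - 2 * m)) = true) : False := by
  have := fc3_aux j hj s (by omega) m (by omega) hs hm h
  have h6 : chk3 j s m = true := by
    simp only [chk3, h0, h1, h2, h4, h5, beq_self_eq_true, Bool.true_and, Bool.and_true,
      Bool.or_eq_true, beq_iff_eq, Nat.ble_eq]
    exact h3
  rw [this] at h6
  exact absurd h6 (by decide)

/-- The entries of the first block that consist of the letters `0`, `1`. -/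
theorem fc4 : ∀ a < 52, ∀ n < 52, 13 ≤ a → 1 ≤ n → a + 1 + n < 52 → uc a = 3 →
    uc (a + 1 + n) = 3 → (∀ t < n, uc (a + 1 + t) ≤ 1) →
    n = 4 ∧ ((uc (a + 1) = 0 ∧ uc (a + 2) = 1 ∧ uc (a + 4) = 1) ∨
      (uc (a + 1) = 1 ∧ uc (a + 3) = 0 ∧ uc (a + 4) = 0)) := by
  decide +kernel

end Pool.Agent.MP554eee
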